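import Pool.Agent.H7Cinf2

set_option autoImplicit false

open Pool.Agent.H7Cinf

namespace Pool.Agent.Results.MP_cb17ae_an.Epimorphisms

/-- Every surjective algebra homomorphism from `C^∞([0,1])` onto a (not necessarily unital or
commutative) Banach algebra `B` is continuous, and `B` is finite-dimensional. -/
theorem result {B : Type*} [NonUnitalNormedRing B] [NormedSpace ℂ B] [IsScalarTower ℂ B B]
    [SMulCommClass ℂ B B] [CompleteSpace B] (θ : (J → ℂ) → B) (hom : IsHom θ)
    (surj : ∀ b : B, ∃ f, IsSmooth f ∧ θ f = b) :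
    FrechetContinuous θ ∧ FiniteDimensional ℂ B :=
  main' θ hom surj

end Pool.Agent.Results.MP_cb17ae_an.Epimorphisms
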